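import Mathlib

set_option autoImplicit false

/-!
# Unique subgraphs of graphs with n log2 n missing edges

A spanning subgraph `H` of `G` which is not unique is mapped by some vertex permutation `σ ≠ 1`
to another spanning subgraph of `G`.  For fixed `σ` the expected proportion (over `G_n`) of such
`H` is `E 2 ^ (-|B \ σ B|)`, where `B` is the uniformly random set of `t` missing edges.  We bound it
by `((1 + f/N)/2)^t * (1 + 7 (t/N)^2)^(N - f)`, with `f` the number of pairs fixed by `σ`, and sum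
over all permutations; the sum tends to `0`, and Markov's inequality finishes the proof.
-/

namespace Pool.Agent.Results.MP_618f8d_co.AlmostAllUnique

open Finset

/-- `H` is a unique subgraph of `G`: `H` is a spanning subgraph of `G` and no other spanning
subgraph of `G` is isomorphic to `H`. -/
def IsUniqueSubgraph {V : Type*} (G H : SimpleGraph V) : Prop :=
  H ≤ G ∧ ∀ H' : SimpleGraph V, H' ≤ G → Nonempty (H' ≃g H) → H' = H

/-- `u(G)`: the number of unique subgraphs of `G`. -/
noncomputable def numUnique {V : Type*} (G : SimpleGraph V) : ℕ :=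
  {H : SimpleGraph V | IsUniqueSubgraph G H}.ncard

/-- `m_n = C(n,2) - floor(n log n / log 2)`. -/
noncomputable def mEdges (n : ℕ) : ℕ := n.choose 2 - ⌊(n : ℝ) * Real.log n / Real.log 2⌋₊

section abs
variable {E : Type*} [Fintype E] [DecidableEq E]

lemma card_filter_superset (t : ℕ) (A : Finset E) (hA : A.card ≤ t) :
    ((powersetCard t (univ : Finset E)).filter (fun B => A ⊆ B)).card
      = (Fintype.card E - A.card).choose (t - A.card) := by
  have : ((powersetCard t (univ : Finset E)).filter (fun B => A ⊆ B))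
      = (powersetCard (t - A.card) (Aᶜ : Finset E)).image (fun C => A ∪ C) := by
    ext B
    simp only [mem_filter, mem_powersetCard, subset_univ, true_and, mem_image]
    constructor
    · rintro ⟨hB, hAB⟩
      refine ⟨B \ A, ⟨?_, ?_⟩, ?_⟩
      · intro x hx; simp at hx ⊢; exact hx.2
      · rw [card_sdiff_of_subset hAB, hB]
      · simp [Finset.union_sdiff_of_subset hAB]
    · rintro ⟨C, ⟨hC, hCc⟩, rfl⟩
      refine ⟨?_, subset_union_left⟩
      rw [card_union_of_disjoint]
      · omega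
      · rw [Finset.disjoint_left]; intro a ha hc; have := hC hc; simp at this; exact this ha
  rw [this, card_image_of_injOn, card_powersetCard, card_compl]
  intro C hC D hD h
  rw [mem_coe, mem_powersetCard] at hC hD
  have e1 : (A ∪ C) \ A = C := by
    ext x; simp only [mem_sdiff, mem_union]
    constructor
    · rintro ⟨h1 | h1, h2⟩
      · exact absurd h1 h2
      · exact h1
    · intro hx; have := hC.1 hx; simp at this; exact ⟨Or.inr hx, this⟩
  have e2 : (A ∪ D) \ A = D := by
    ext x; simp only [mem_sdiff, mem_union]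
    constructor
    · rintro ⟨h1 | h1, h2⟩
      · exact absurd h1 h2
      · exact h1
    · intro hx; have := hD.1 hx; simp at this; exact ⟨Or.inr hx, this⟩
  simp only at h
  rw [← e1, ← e2, h]

/-- `P N t a = (t)_a / (N)_a`. -/
noncomputable def P (N t a : ℕ) : ℝ := (t.descFactorial a : ℝ) / (N.descFactorial a : ℝ)

lemma P_nonneg (N t a : ℕ) : 0 ≤ P N t a := by unfold P; positivity

lemma P_succ_le (N t a : ℕ) (h : t ≤ N) (hN : 0 < N) : P N t (a+1) ≤ P N t a * ((t:ℝ)/N) := by
  unfold P
  rcases le_or_gt t a with hta | hta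
  · have : t.descFactorial (a+1) = 0 := Nat.descFactorial_eq_zero_iff_lt.mpr (by omega)
    rw [this]; simp; positivity
  · rw [Nat.descFactorial_succ, Nat.descFactorial_succ]
    have h1 : (0:ℝ) < (N.descFactorial a : ℝ) := by
      exact_mod_cast Nat.descFactorial_pos.mpr (by omega)
    have h2 : ((t - a : ℕ) : ℝ) = (t:ℝ) - a := by rw [Nat.cast_sub hta.le]
    have h3 : ((N - a : ℕ) : ℝ) = (N:ℝ) - a := by rw [Nat.cast_sub (by omega)]
    push_cast [h2, h3]
    have h4 : (0:ℝ) < (N:ℝ) - a := by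
      have : (a:ℝ) < N := by exact_mod_cast (lt_of_lt_of_le hta h)
      linarith
    have hN' : (0:ℝ) < N := by exact_mod_cast hN
    have key : ((t:ℝ) - a)/((N:ℝ) - a) ≤ t / N := by
      rw [div_le_div_iff₀ h4 hN']
      have : (t:ℝ) ≤ N := by exact_mod_cast h
      nlinarith [(Nat.cast_nonneg a : (0:ℝ) ≤ a)]
    calc ((t:ℝ) - a) * (t.descFactorial a) / (((N:ℝ) - a) * (N.descFactorial a))
        = (((t:ℝ) - a)/((N:ℝ) - a)) * ((t.descFactorial a) / (N.descFactorial a)) := by
          field_simp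
      _ ≤ (t/N) * ((t.descFactorial a) / (N.descFactorial a)) := by
          apply mul_le_mul_of_nonneg_right key; positivity
      _ = _ := by ring

lemma P_add_le (N t a i : ℕ) (h : t ≤ N) (hN : 0 < N) :
    P N t (a+i) ≤ P N t a * ((t:ℝ)/N)^i := by
  induction i with
  | zero => simp
  | succ i ih =>
    calc P N t (a + (i+1)) = P N t ((a+i)+1) := by ring_nf
      _ ≤ P N t (a+i) * ((t:ℝ)/N) := P_succ_le N t (a+i) h hN
      _ ≤ (P N t a * ((t:ℝ)/N)^i) * ((t:ℝ)/N) := by
          apply mul_le_mul_of_nonneg_right ih; positivity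
      _ = _ := by ring

lemma cnt_eq (t : ℕ) (A : Finset E) :
    (((powersetCard t (univ : Finset E)).filter (fun B => A ⊆ B)).card : ℝ)
      = ((Fintype.card E).choose t : ℝ) * P (Fintype.card E) t A.card := by
  set N := Fintype.card E with hN
  rcases le_or_gt A.card t with hA | hA
  · rw [card_filter_superset t A hA]
    have hAN : A.card ≤ N := Finset.card_le_univ A
    have h1 := Nat.choose_mul (n := N) (k := t) (s := A.card) hA
    unfold P
    have h2 : (0:ℝ) < (N.descFactorial A.card : ℝ) := by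
      exact_mod_cast Nat.descFactorial_pos.mpr hAN
    rw [mul_div_assoc', eq_div_iff h2.ne']
    have h3 : (N.descFactorial A.card) = A.card.factorial * N.choose A.card := Nat.descFactorial_eq_factorial_mul_choose _ _
    have h4 : (t.descFactorial A.card) = A.card.factorial * t.choose A.card := Nat.descFactorial_eq_factorial_mul_choose _ _
    rw [h3, h4]
    have h1' : ((N.choose t : ℝ)) * (t.choose A.card) = (N.choose A.card) * ((N - A.card).choose (t - A.card)) := by
      exact_mod_cast h1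
    push_cast
    linear_combination (-(A.card.factorial : ℝ)) * h1'
  · have : (powersetCard t (univ : Finset E)).filter (fun B => A ⊆ B) = ∅ := by
      rw [Finset.filter_eq_empty_iff]
      intro B hB hAB
      rw [mem_powersetCard] at hB
      have := card_le_card hAB
      omega
    rw [this]
    unfold P
    have : t.descFactorial A.card = 0 := Nat.descFactorial_eq_zero_iff_lt.mpr hA
    rw [this]; simp

omit [Fintype E] [DecidableEq E] in
lemma sum_P_le (N t f : ℕ) (hf : f ≤ N) (hN : 0 < N) (s : Finset E) (hs : s.card = f) :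
    ∑ S ∈ s.powerset, P N t S.card ≤ (1 + (f:ℝ)/N)^t := by
  rw [Finset.sum_powerset_apply_card (fun j => P N t j), hs]
  have hfac : ∀ j, (f.choose j : ℝ) * P N t j ≤ (t.choose j : ℝ) * ((f:ℝ)/N)^j := by
    intro j
    have hP : P N f j ≤ ((f:ℝ)/N)^j := by
      have := P_add_le N f 0 j hf hN
      simpa [P] using this
    have e : (f.choose j : ℝ) * P N t j = (t.choose j : ℝ) * P N f j := by
      unfold P
      rw [Nat.descFactorial_eq_factorial_mul_choose t j, Nat.descFactorial_eq_factorial_mul_choose f j]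
      push_cast; ring
    rw [e]
    exact mul_le_mul_of_nonneg_left hP (by positivity)
  calc ∑ m ∈ range (f + 1), (f.choose m) • P N t m
      ≤ ∑ m ∈ range (f+1), (t.choose m : ℝ) * ((f:ℝ)/N)^m := by
        apply sum_le_sum; intro j _; rw [nsmul_eq_mul]; exact hfac j
    _ ≤ ∑ m ∈ range (max f t + 1), (t.choose m : ℝ) * ((f:ℝ)/N)^m := by
        apply sum_le_sum_of_subset_of_nonneg
        · intro x hx; simp at hx ⊢; omega
        · intros; positivity
    _ = ∑ m ∈ range (t + 1), (t.choose m : ℝ) * ((f:ℝ)/N)^m := by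
        symm
        apply sum_subset
        · intro x hx; simp at hx ⊢; omega
        · intro x _ hx
          have : t < x := by simpa using hx
          rw [Nat.choose_eq_zero_of_lt this]; simp
    _ = (1 + (f:ℝ)/N)^t := by
        rw [add_comm (1:ℝ), add_pow]
        apply sum_congr rfl; intro j _; simp; ring



omit [Fintype E] in
lemma exists_maximal_indep (π : Equiv.Perm E) (U : Finset E) (hU : ∀ x ∈ U, π x ≠ x) :
    ∃ I ⊆ U, (∀ x ∈ I, π x ∉ I) ∧ ∀ y ∈ U, y ∉ I → (π y ∈ I ∨ π.symm y ∈ I) := by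
  have hne : (U.powerset.filter (fun I => ∀ x ∈ I, π x ∉ I)).Nonempty := ⟨∅, by simp⟩
  obtain ⟨I, hI, hmax⟩ := Finset.exists_max_image _ (fun I : Finset E => I.card) hne
  rw [mem_filter, mem_powerset] at hI
  refine ⟨I, hI.1, hI.2, ?_⟩
  intro y hy hyI
  by_contra hcon
  push Not at hcon
  have hmem : insert y I ∈ U.powerset.filter (fun I => ∀ x ∈ I, π x ∉ I) := by
    rw [mem_filter, mem_powerset]
    refine ⟨insert_subset hy hI.1, ?_⟩
    intro x hx
    rw [mem_insert] at hx ⊢
    push Not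
    rcases hx with rfl | hx
    · exact ⟨hU _ hy, hcon.1⟩
    · refine ⟨?_, hI.2 x hx⟩
      intro h
      apply hcon.2
      rw [← h]; simpa using hx
  have := hmax _ hmem
  rw [card_insert_of_notMem hyI] at this
  omega

omit [Fintype E] in
lemma exists_three (π : Equiv.Perm E) (U : Finset E) (hU : ∀ x ∈ U, π x ≠ x) :
    ∃ M₁ M₂ M₃ : Finset E, M₁ ⊆ U ∧ M₂ ⊆ U ∧ M₃ ⊆ U ∧ M₁ ∪ M₂ ∪ M₃ = U ∧
      (∀ x ∈ M₁, π x ∉ M₁) ∧ (∀ x ∈ M₂, π x ∉ M₂) ∧ (∀ x ∈ M₃, π x ∉ M₃) := by
  classical
  obtain ⟨M₁, h1, h1i, h1m⟩ := exists_maximal_indep π U hU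
  obtain ⟨M₂, h2, h2i, h2m⟩ := exists_maximal_indep π (U \ M₁) (fun x hx => hU x (mem_sdiff.mp hx).1)
  refine ⟨M₁, M₂, (U \ M₁) \ M₂, h1, h2.trans sdiff_subset, sdiff_subset.trans sdiff_subset, ?_, h1i, h2i, ?_⟩
  · ext x
    simp only [mem_union, mem_sdiff]
    constructor
    · rintro ((h | h) | h)
      · exact h1 h
      · exact (mem_sdiff.mp (h2 h)).1
      · exact h.1.1
    · intro hx; tauto
  · intro x hx hπ
    simp only [mem_sdiff] at hx hπ
    have a1 := h1m x hx.1.1 hx.1.2
    have a2 := h2m x (mem_sdiff.mpr hx.1) hx.2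
    have a3 : π.symm x ∈ M₁ := by tauto
    have a4 : π.symm x ∈ M₂ := by tauto
    exact (mem_sdiff.mp (h2 a4)).2 a3

lemma indep_bound (π : Equiv.Perm E) (t : ℕ) (ht : t ≤ Fintype.card E) (hN : 0 < Fintype.card E)
    (M : Finset E) (hM : ∀ x ∈ M, π x ≠ x) (hMi : ∀ x ∈ M, π x ∉ M) :
    ∑ B ∈ powersetCard t (univ : Finset E),
        (2:ℝ) ^ ((univ.filter (fun x => π x = x)) ∩ B).card * 8 ^ (M.filter (fun x => x ∈ B ∧ π x ∈ B)).card
      ≤ ((Fintype.card E).choose t : ℝ) *
        ((1 + ((univ.filter (fun x => π x = x)).card : ℝ) / (Fintype.card E))^t *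
          (1 + 7 * ((t:ℝ)/(Fintype.card E))^2)^M.card) := by
  classical
  set N := Fintype.card E with hNdef
  set Fix : Finset E := univ.filter (fun x => π x = x) with hFix
  have h2 : ∀ B : Finset E, (2:ℝ)^(Fix ∩ B).card = ∑ S ∈ Fix.powerset, if S ⊆ B then (1:ℝ) else 0 := by
    intro B
    rw [← Finset.sum_filter]
    have : Fix.powerset.filter (fun S => S ⊆ B) = (Fix ∩ B).powerset := by
      ext S; rw [mem_filter, mem_powerset, mem_powerset, subset_inter_iff]
    rw [this, sum_const, card_powerset]; simp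
  have h8 : ∀ B : Finset E, (8:ℝ)^(M.filter (fun x => x ∈ B ∧ π x ∈ B)).card
      = ∑ S ∈ M.powerset, if (S ∪ S.map π.toEmbedding) ⊆ B then (7:ℝ)^S.card else 0 := by
    intro B
    rw [← Finset.sum_filter]
    have : M.powerset.filter (fun S => (S ∪ S.map π.toEmbedding) ⊆ B) = (M.filter (fun x => x ∈ B ∧ π x ∈ B)).powerset := by
      ext S
      simp only [mem_filter, mem_powerset, union_subset_iff]
      constructor
      · rintro ⟨h1, h2, h3⟩ x hx
        rw [mem_filter]
        refine ⟨h1 hx, h2 hx, h3 ?_⟩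
        rw [mem_map]; exact ⟨x, hx, rfl⟩
      · intro h
        refine ⟨fun x hx => (mem_filter.mp (h hx)).1, fun x hx => (mem_filter.mp (h hx)).2.1, ?_⟩
        intro y hy
        rw [mem_map] at hy
        obtain ⟨x, hx, rfl⟩ := hy
        exact (mem_filter.mp (h hx)).2.2
    rw [this]
    have := Finset.sum_pow_mul_eq_add_pow (7:ℝ) 1 (M.filter (fun x => x ∈ B ∧ π x ∈ B))
    simp only [one_pow, mul_one] at this
    rw [this]; norm_num
  have hcard : ∀ S₁ ∈ Fix.powerset, ∀ S₂ ∈ M.powerset,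
      (S₁ ∪ (S₂ ∪ S₂.map π.toEmbedding)).card = S₁.card + 2 * S₂.card := by
    intro S₁ h₁ S₂ h₂
    rw [mem_powerset] at h₁ h₂
    rw [card_union_of_disjoint, card_union_of_disjoint, card_map]
    · omega
    · rw [Finset.disjoint_left]
      intro a ha hb
      rw [mem_map] at hb
      obtain ⟨x, hx, rfl⟩ := hb
      exact hMi x (h₂ hx) (h₂ ha)
    · rw [Finset.disjoint_left]
      intro a ha hb
      have hfa : π a = a := by have := h₁ ha; simpa [hFix] using this
      rw [mem_union, mem_map] at hb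
      rcases hb with hb | ⟨x, hx, hxa⟩
      · exact hM a (h₂ hb) hfa
      · have : π x = a := hxa
        have h3 : x = a := by apply π.injective; rw [this, hfa]
        exact hM x (h₂ hx) (by rw [this, h3])
  calc ∑ B ∈ powersetCard t (univ : Finset E), (2:ℝ) ^ (Fix ∩ B).card * 8 ^ (M.filter (fun x => x ∈ B ∧ π x ∈ B)).card
      = ∑ B ∈ powersetCard t (univ : Finset E), ∑ S₁ ∈ Fix.powerset, ∑ S₂ ∈ M.powerset,
          (if (S₁ ∪ (S₂ ∪ S₂.map π.toEmbedding)) ⊆ B then (7:ℝ)^S₂.card else 0) := by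
        apply sum_congr rfl; intro B _
        rw [h2, h8, sum_mul_sum]
        apply sum_congr rfl; intro S₁ _
        apply sum_congr rfl; intro S₂ _
        by_cases a : S₁ ⊆ B
        · by_cases b : (S₂ ∪ S₂.map π.toEmbedding) ⊆ B
          · rw [if_pos a, if_pos b, if_pos (union_subset a b), one_mul]
          · rw [if_neg b, if_neg (fun h => b (subset_union_right.trans h)), mul_zero]
        · rw [if_neg a, if_neg (fun h => a (subset_union_left.trans h)), zero_mul]
    _ = ∑ S₁ ∈ Fix.powerset, ∑ S₂ ∈ M.powerset, (7:ℝ)^S₂.card *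
          (((powersetCard t (univ : Finset E)).filter (fun B => (S₁ ∪ (S₂ ∪ S₂.map π.toEmbedding)) ⊆ B)).card : ℝ) := by
        rw [sum_comm]
        apply sum_congr rfl; intro S₁ _
        rw [sum_comm]
        apply sum_congr rfl; intro S₂ _
        rw [← Finset.sum_filter, sum_const, nsmul_eq_mul]; ring
    _ = ∑ S₁ ∈ Fix.powerset, ∑ S₂ ∈ M.powerset, (7:ℝ)^S₂.card *
          ((N.choose t : ℝ) * P N t (S₁.card + 2 * S₂.card)) := by
        apply sum_congr rfl; intro S₁ h₁
        apply sum_congr rfl; intro S₂ h₂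
        rw [cnt_eq, hcard S₁ h₁ S₂ h₂]
    _ ≤ ∑ S₁ ∈ Fix.powerset, ∑ S₂ ∈ M.powerset, (7:ℝ)^S₂.card *
          ((N.choose t : ℝ) * (P N t S₁.card * ((t:ℝ)/N)^(2 * S₂.card))) := by
        apply sum_le_sum; intro S₁ h₁
        apply sum_le_sum; intro S₂ h₂
        gcongr
        exact P_add_le N t _ _ ht hN
    _ = (N.choose t : ℝ) * ((∑ S₁ ∈ Fix.powerset, P N t S₁.card) *
          (∑ S₂ ∈ M.powerset, (7 * ((t:ℝ)/N)^2)^S₂.card)) := by
        rw [sum_mul_sum, mul_sum]
        apply sum_congr rfl; intro S₁ _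
        rw [mul_sum]
        apply sum_congr rfl; intro S₂ _
        rw [mul_pow, ← pow_mul]; ring
    _ ≤ _ := by
        have e1 : ∑ S₂ ∈ M.powerset, (7 * ((t:ℝ)/N)^2)^S₂.card = (1 + 7 * ((t:ℝ)/N)^2)^M.card := by
          have := Finset.sum_pow_mul_eq_add_pow (7 * ((t:ℝ)/N)^2) 1 M
          simp only [one_pow, mul_one] at this
          rw [this, add_comm]
        rw [e1]
        gcongr
        exact sum_P_le N t Fix.card (Finset.card_le_univ Fix) hN Fix rfl

lemma main_bound (π : Equiv.Perm E) (t : ℕ) (ht : t ≤ Fintype.card E) (hN : 0 < Fintype.card E) :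
    ∑ B ∈ powersetCard t (univ : Finset E), (2:ℝ) ^ (B.filter (fun x => π x ∈ B)).card
      ≤ ((Fintype.card E).choose t : ℝ) *
        ((1 + ((univ.filter (fun x => π x = x)).card : ℝ) / (Fintype.card E))^t *
          (1 + 7 * ((t:ℝ)/(Fintype.card E))^2)^(univ.filter (fun x => π x ≠ x)).card) := by
  classical
  obtain ⟨M₁, M₂, M₃, h1, h2, h3, hU, i1, i2, i3⟩ :=
    exists_three π (univ.filter (fun x => π x ≠ x)) (by intro x hx; simpa using hx)
  set Fix : Finset E := univ.filter (fun x => π x = x) with hFix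
  set Mov : Finset E := univ.filter (fun x => π x ≠ x) with hMov
  have hle : ∀ M ⊆ Mov, (1 + 7 * ((t:ℝ)/(Fintype.card E))^2)^M.card ≤ (1 + 7 * ((t:ℝ)/(Fintype.card E))^2)^Mov.card := by
    intro M hM
    apply pow_le_pow_right₀
    · have : 0 ≤ 7 * ((t:ℝ)/(Fintype.card E))^2 := by positivity
      linarith
    · exact card_le_card hM
  have hb : ∀ M ⊆ Mov, (∀ x ∈ M, π x ∉ M) →
      ∑ B ∈ powersetCard t (univ : Finset E),
        (2:ℝ) ^ (Fix ∩ B).card * 8 ^ (M.filter (fun x => x ∈ B ∧ π x ∈ B)).card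
      ≤ ((Fintype.card E).choose t : ℝ) *
        ((1 + (Fix.card : ℝ) / (Fintype.card E))^t *
          (1 + 7 * ((t:ℝ)/(Fintype.card E))^2)^Mov.card) := by
    intro M hM hi
    refine (indep_bound π t ht hN M (fun x hx => by have := hM hx; simpa [hMov] using this) hi).trans ?_
    have := hle M hM
    gcongr
  have hcard : ∀ B : Finset E, (B.filter (fun x => π x ∈ B)).card ≤
      (Fix ∩ B).card + ((M₁.filter (fun x => x ∈ B ∧ π x ∈ B)).card + (M₂.filter (fun x => x ∈ B ∧ π x ∈ B)).card
        + (M₃.filter (fun x => x ∈ B ∧ π x ∈ B)).card) := by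
    intro B
    have : B.filter (fun x => π x ∈ B) ⊆ (Fix ∩ B) ∪ ((M₁.filter (fun x => x ∈ B ∧ π x ∈ B)) ∪ (M₂.filter (fun x => x ∈ B ∧ π x ∈ B)) ∪ (M₃.filter (fun x => x ∈ B ∧ π x ∈ B))) := by
      intro x hx
      rw [mem_filter] at hx
      by_cases hfx : π x = x
      · rw [mem_union]; left; rw [mem_inter]; exact ⟨by simpa [hFix] using hfx, hx.1⟩
      · have : x ∈ M₁ ∪ M₂ ∪ M₃ := by rw [hU]; simpa [hMov] using hfx
        simp only [mem_union, mem_filter] at this ⊢
        tauto
    refine (card_le_card this).trans ?_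
    refine (card_union_le _ _).trans ?_
    gcongr
    refine (card_union_le _ _).trans ?_
    gcongr
    exact card_union_le _ _
  have amgm : ∀ a b c : ℝ, 0 ≤ a → 0 ≤ b → 0 ≤ c → a * b * c ≤ (a^3 + b^3 + c^3)/3 := by
    intro a b c ha hb hc
    nlinarith [mul_nonneg (add_nonneg (add_nonneg ha hb) hc) (sq_nonneg (a-b)), mul_nonneg (add_nonneg (add_nonneg ha hb) hc) (sq_nonneg (b-c)), mul_nonneg (add_nonneg (add_nonneg ha hb) hc) (sq_nonneg (a-c))]
  have hpt : ∀ B : Finset E, (2:ℝ) ^ (B.filter (fun x => π x ∈ B)).card ≤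
      (1/3) * ((2:ℝ) ^ (Fix ∩ B).card * 8 ^ (M₁.filter (fun x => x ∈ B ∧ π x ∈ B)).card) +
      (1/3) * ((2:ℝ) ^ (Fix ∩ B).card * 8 ^ (M₂.filter (fun x => x ∈ B ∧ π x ∈ B)).card) +
      (1/3) * ((2:ℝ) ^ (Fix ∩ B).card * 8 ^ (M₃.filter (fun x => x ∈ B ∧ π x ∈ B)).card) := by
    intro B
    refine (pow_le_pow_right₀ (by norm_num) (hcard B)).trans ?_
    rw [pow_add, pow_add, pow_add]
    have e8 : ∀ k : ℕ, ((2:ℝ)^k)^3 = 8^k := by
      intro k; rw [← pow_mul, mul_comm, pow_mul]; norm_num
    have := amgm (2 ^ (M₁.filter (fun x => x ∈ B ∧ π x ∈ B)).card) (2 ^ (M₂.filter (fun x => x ∈ B ∧ π x ∈ B)).card) (2 ^ (M₃.filter (fun x => x ∈ B ∧ π x ∈ B)).card) (by positivity) (by positivity) (by positivity)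
    rw [e8, e8, e8] at this
    have hp : (0:ℝ) ≤ 2 ^ (Fix ∩ B).card := by positivity
    nlinarith [mul_le_mul_of_nonneg_left this hp]
  refine (sum_le_sum (fun B _ => hpt B)).trans ?_
  rw [sum_add_distrib, sum_add_distrib, ← mul_sum, ← mul_sum, ← mul_sum]
  have b1 := hb M₁ h1 i1
  have b2 := hb M₂ h2 i2
  have b3 := hb M₃ h3 i3
  linarith

end abs

open Filter Topology

noncomputable def tt (n : ℕ) : ℕ := ⌊(n:ℝ) * Real.log n / Real.log 2⌋₊

noncomputable def wt (n m : ℕ) : ℝ :=
  ((1 + (((n-m).choose 2 + m : ℕ) : ℝ)/(n.choose 2 : ℕ))/2)^(tt n)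
    * (1 + 7*((tt n : ℝ)/(n.choose 2 : ℕ))^2)^(m*n)

lemma tt_le (n : ℕ) (hn : 1 ≤ n) : (tt n : ℝ) ≤ (n:ℝ) * Real.log n / Real.log 2 := by
  apply Nat.floor_le
  have h1 : 0 ≤ Real.log n := Real.log_natCast_nonneg n
  have h2 : 0 < Real.log 2 := Real.log_pos (by norm_num)
  positivity

lemma lt_tt (n : ℕ) : (n:ℝ) * Real.log n / Real.log 2 - 1 < (tt n : ℝ) := by
  have := Nat.lt_floor_add_one ((n:ℝ) * Real.log n / Real.log 2)
  unfold tt
  linarith

lemma choose_two_real (n : ℕ) : ((n.choose 2 : ℕ) : ℝ) = (n:ℝ) * (n-1) / 2 := by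
  rw [Nat.cast_choose_two]

/-- bound for the pair-overlap factor -/
lemma ovl_le (n m : ℕ) (hn : 2000 ≤ n) :
    (1 + 7*((tt n : ℝ)/(n.choose 2 : ℕ))^2)^(m*n) ≤ Real.exp (112 * (Real.log n)^2 * m / n) := by
  have hn' : (2000:ℝ) ≤ n := by exact_mod_cast hn
  set L := Real.log n with hL
  have hL0 : 0 ≤ L := Real.log_natCast_nonneg n
  have hl2 : (0.6931:ℝ) < Real.log 2 := by have := Real.log_two_gt_d9; linarith
  have hq : ((tt n : ℝ)/(n.choose 2 : ℕ)) ≤ 4 * L / n := by
    rw [choose_two_real n, div_le_div_iff₀ (by nlinarith) (by linarith)]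
    have h1 := tt_le n (by omega)
    have h2 : (n:ℝ) * L / Real.log 2 ≤ n * L / 0.6931 := by
      apply div_le_div_of_nonneg_left (by positivity) (by norm_num) hl2.le
    have h3 : (tt n : ℝ) ≤ n * L / 0.6931 := h1.trans h2
    have h4 : (n:ℝ) * L / 0.6931 * n ≤ 4 * L * (n * (n-1)/2) := by
      have : (n:ℝ) * L / 0.6931 * n = (n * L) * (n / 0.6931) := by ring
      rw [this]
      have : 4 * L * ((n:ℝ) * (n-1)/2) = (n * L) * (2 * (n-1)) := by ring
      rw [this]
      apply mul_le_mul_of_nonneg_left _ (by positivity)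
      rw [div_le_iff₀ (by norm_num)]
      nlinarith
    calc (tt n : ℝ) * n ≤ n * L / 0.6931 * n := by gcongr
      _ ≤ _ := h4
  have hq0 : 0 ≤ ((tt n : ℝ)/(n.choose 2 : ℕ)) := by positivity
  have hq2 : 7*((tt n : ℝ)/(n.choose 2 : ℕ))^2 ≤ 112 * L^2 / n^2 := by
    calc 7*((tt n : ℝ)/(n.choose 2 : ℕ))^2 ≤ 7 * (4 * L / n)^2 := by gcongr
      _ = 112 * L^2 / n^2 := by ring
  have h1 : 1 + 7*((tt n : ℝ)/(n.choose 2 : ℕ))^2 ≤ Real.exp (112 * L^2 / n^2) := by
    have := Real.add_one_le_exp (112 * L^2 / (n:ℝ)^2)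
    linarith
  calc (1 + 7*((tt n : ℝ)/(n.choose 2 : ℕ))^2)^(m*n) ≤ (Real.exp (112 * L^2 / n^2))^(m*n) := by
        gcongr
    _ = Real.exp (112 * L^2 * m / n) := by
        rw [← Real.exp_nat_mul]; congr 1; push_cast; field_simp

lemma termA (n m : ℕ) (hn : 2000 ≤ n) (hm : 2 * m ≤ n) (hLn : 112 * Real.log n / n ≤ 0.01) :
    (n.descFactorial m : ℝ) * wt n m ≤ Real.exp (-(0.04 * Real.log n)) ^ m := by
  have hn' : (2000:ℝ) ≤ n := by exact_mod_cast hn
  have hm' : 2 * (m:ℝ) ≤ n := by exact_mod_cast hm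
  set L := Real.log n with hL
  have hL1 : (1:ℝ) ≤ L := by
    rw [hL, Real.le_log_iff_exp_le (by linarith)]
    have := Real.exp_one_lt_d9
    linarith
  have hl2 : Real.log 2 < (0.69315:ℝ) := by have := Real.log_two_lt_d9; linarith
  have hl2' : (0:ℝ) < Real.log 2 := Real.log_pos (by norm_num)
  have h1 : (n.descFactorial m : ℝ) ≤ Real.exp (m * L) := by
    have : (n.descFactorial m : ℝ) ≤ (n:ℝ)^m := by exact_mod_cast Nat.descFactorial_le_pow n m
    rw [mul_comm, Real.exp_mul, hL, Real.exp_log (by linarith)]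
    simpa using this
  have ht : 1.442 * ((n:ℝ) * L) ≤ (tt n : ℝ) := by
    have h := lt_tt n
    rw [← hL] at h
    have h2 : (n:ℝ) * L / 0.69315 ≤ n * L / Real.log 2 := by
      apply div_le_div_of_nonneg_left (by positivity) hl2' hl2.le
    have h3 : (1.44265:ℝ) * (n * L) ≤ n * L / 0.69315 := by
      rw [le_div_iff₀ (by norm_num)]; nlinarith [mul_nonneg (by linarith : (0:ℝ) ≤ n) (by linarith : (0:ℝ) ≤ L)]
    have h4 : (1:ℝ) ≤ 0.00065 * (n * L) := by nlinarith
    linarith
  have hφ : (1 + (((n-m).choose 2 + m : ℕ) : ℝ)/(n.choose 2 : ℕ))/2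
      = 1 - (m:ℝ) * (2 * n - m - 3) / (2 * (n * (n - 1))) := by
    push_cast
    rw [choose_two_real n, Nat.cast_choose_two, Nat.cast_sub (by omega)]
    have : (n:ℝ) * (n-1) ≠ 0 := by
      apply mul_ne_zero <;> linarith
    have h2 : (n:ℝ) - 1 ≠ 0 := by linarith
    have h3 : (n:ℝ) ≠ 0 := by linarith
    field_simp
    ring
  have hd : (0.7425:ℝ) * m / n ≤ (m:ℝ) * (2 * n - m - 3) / (2 * (n * (n - 1))) := by
    rw [div_le_div_iff₀ (by linarith) (by nlinarith)]
    have hm0 : (0:ℝ) ≤ m := Nat.cast_nonneg m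
    have : 0.7425 * (2 * ((n:ℝ) * (n - 1))) ≤ (2 * n - m - 3) * n := by nlinarith
    nlinarith
  have hbase : (1 + (((n-m).choose 2 + m : ℕ) : ℝ)/(n.choose 2 : ℕ))/2 ≤ Real.exp (-(0.7425 * m / n)) := by
    rw [hφ]
    have := Real.add_one_le_exp (-(0.7425 * (m:ℝ) / n))
    linarith
  have h2 : ((1 + (((n-m).choose 2 + m : ℕ) : ℝ)/(n.choose 2 : ℕ))/2)^(tt n) ≤ Real.exp (-(1.05 * m * L)) := by
    calc ((1 + (((n-m).choose 2 + m : ℕ) : ℝ)/(n.choose 2 : ℕ))/2)^(tt n)
        ≤ (Real.exp (-(0.7425 * m / n)))^(tt n) := by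
          gcongr
      _ = Real.exp (tt n * (-(0.7425 * m / n))) := by rw [← Real.exp_nat_mul]
      _ ≤ Real.exp (-(1.05 * m * L)) := by
          apply Real.exp_le_exp.mpr
          have hm0 : (0:ℝ) ≤ 0.7425 * m / n := by positivity
          have := mul_le_mul_of_nonneg_right ht hm0
          have e : 1.442 * ((n:ℝ) * L) * (0.7425 * m / n) = 1.442 * 0.7425 * (m * L) := by
            field_simp
          rw [e] at this
          have hmL : 0 ≤ (m:ℝ) * L := by positivity
          nlinarith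
  have h3 := ovl_le n m hn
  unfold wt
  calc (n.descFactorial m : ℝ) * (((1 + (((n-m).choose 2 + m : ℕ) : ℝ)/(n.choose 2 : ℕ))/2)^(tt n)
        * (1 + 7*((tt n : ℝ)/(n.choose 2 : ℕ))^2)^(m*n))
      ≤ Real.exp (m * L) * (Real.exp (-(1.05 * m * L)) * Real.exp (112 * L^2 * m / n)) := by
        gcongr
    _ = Real.exp (m * L + (-(1.05 * m * L) + 112 * L^2 * m / n)) := by
        rw [Real.exp_add, Real.exp_add]
    _ ≤ Real.exp (m * (-(0.04 * L))) := by
        apply Real.exp_le_exp.mpr
        have e : 112 * L^2 * m / n = (112 * L / n) * (L * m) := by ring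
        rw [e]
        have hmL : 0 ≤ L * (m:ℝ) := by positivity
        have := mul_le_mul_of_nonneg_right hLn hmL
        nlinarith
    _ = Real.exp (-(0.04 * L)) ^ m := by rw [← Real.exp_nat_mul]

lemma xlog_le (A x : ℝ) (hx : 0 < x) : x * (A - Real.log x) ≤ Real.exp (A - 1) := by
  have h := Real.add_one_le_exp (A - 1 - Real.log x)
  have e : Real.exp (A - 1 - Real.log x) = Real.exp (A - 1) / x := by
    rw [Real.exp_sub, Real.exp_log hx]
  rw [e] at h
  have : A - Real.log x ≤ Real.exp (A-1) / x := by linarith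
  calc x * (A - Real.log x) ≤ x * (Real.exp (A-1)/x) := by gcongr
    _ = Real.exp (A - 1) := by field_simp

lemma inv_factorial_le (h : ℕ) (hh : 1 ≤ h) : (1:ℝ) / (h.factorial) ≤ Real.exp (h - h * Real.log h) := by
  have h0 : (0:ℝ) < h := by exact_mod_cast hh
  have := Real.pow_div_factorial_le_exp (h:ℝ) h0.le h
  rw [Real.exp_sub]
  have e : Real.exp (h * Real.log h) = (h:ℝ)^h := by
    rw [mul_comm, Real.exp_mul, Real.exp_log h0]; simp
  rw [e, le_div_iff₀ (by positivity)]
  calc (1:ℝ) / (h.factorial) * (h:ℝ)^h = (h:ℝ)^h / h.factorial := by ring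
    _ ≤ _ := this

lemma hpart (n h : ℕ) (hn : 2000 ≤ n) (hh : 2 * h ≤ n) :
    Real.exp (1.45 * (h:ℝ)^2 * Real.log n / n) * ((1:ℝ) / (h.factorial))
      ≤ Real.exp (n * Real.exp (-(0.275 * Real.log n))) := by
  have hn' : (2000:ℝ) ≤ n := by exact_mod_cast hn
  have hh' : 2 * (h:ℝ) ≤ n := by exact_mod_cast hh
  set L := Real.log n with hL
  have hL1 : (0:ℝ) ≤ L := Real.log_natCast_nonneg n
  rcases Nat.eq_zero_or_pos h with rfl | hpos
  · simp; positivity
  · have h0 : (0:ℝ) < h := by exact_mod_cast hpos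
    calc Real.exp (1.45 * (h:ℝ)^2 * L / n) * ((1:ℝ) / (h.factorial))
        ≤ Real.exp (1.45 * (h:ℝ)^2 * L / n) * Real.exp (h - h * Real.log h) := by
          gcongr; exact inv_factorial_le h hpos
      _ = Real.exp (1.45 * (h:ℝ)^2 * L / n + (h - h * Real.log h)) := by rw [Real.exp_add]
      _ ≤ _ := by
          apply Real.exp_le_exp.mpr
          have hx : (0:ℝ) < h / n := by positivity
          have key := xlog_le (1 - 0.275 * L) (h/n) hx
          have e1 : (1 - 0.275 * L) - 1 = -(0.275 * L) := by ring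
          rw [e1] at key
          have hlog : Real.log ((h:ℝ)/n) = Real.log h - L := by
            rw [Real.log_div (by positivity) (by positivity)]
          rw [hlog] at key
          have key2 := mul_le_mul_of_nonneg_left key (by linarith : (0:ℝ) ≤ n)
          have e2 : (n:ℝ) * (h / n * (1 - 0.275 * L - (Real.log h - L))) = h * (1 - 0.275 * L - (Real.log h - L)) := by
            field_simp
          rw [e2] at key2
          refine le_trans ?_ key2
          have e3 : 1.45 * (h:ℝ)^2 * L / n = (1.45 * (h:ℝ)/n) * (h * L) := by ring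
          rw [e3]
          have e4 : 1.45 * (h:ℝ)/n ≤ 0.725 := by
            rw [div_le_iff₀ (by linarith)]; linarith
          have hhL : 0 ≤ h * L := by positivity
          nlinarith [mul_le_mul_of_nonneg_right e4 hhL]

set_option maxHeartbeats 2000000 in
lemma termB (n m : ℕ) (hn : 2000 ≤ n) (hm : n < 2 * m) (hmn : m ≤ n)
    (hS : Stirling.stirlingSeq n ≤ 2)
    (hE : 3.9 * Real.log n + 112 * (Real.log n)^2 + n * Real.exp (-(0.275 * Real.log n)) + 2 ≤ n / 2) :
    (n.descFactorial m : ℝ) * wt n m ≤ Real.exp (-(n/2)) := by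
  have hn' : (2000:ℝ) ≤ n := by exact_mod_cast hn
  have hmn' : (m:ℝ) ≤ n := by exact_mod_cast hmn
  set L := Real.log n with hL
  have hL1 : (1:ℝ) ≤ L := by
    rw [hL, Real.le_log_iff_exp_le (by linarith)]
    have := Real.exp_one_lt_d9
    linarith
  have hl2 : Real.log 2 < (0.69315:ℝ) := by have := Real.log_two_lt_d9; linarith
  have hl2g : (0.6931:ℝ) < Real.log 2 := by have := Real.log_two_gt_d9; linarith
  have hl2' : (0:ℝ) < Real.log 2 := Real.log_pos (by norm_num)
  set h := n - m with hh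
  have hh2 : 2 * h ≤ n := by omega
  have hhr : (h:ℝ) = n - m := by rw [hh, Nat.cast_sub hmn]
  have hh2' : 2 * (h:ℝ) ≤ n := by exact_mod_cast hh2
  have hh0 : (0:ℝ) ≤ h := Nat.cast_nonneg h
  -- factorial
  have hfac : (n.descFactorial m : ℝ) = (n.factorial : ℝ) * ((1:ℝ) / h.factorial) := by
    have := Nat.factorial_mul_descFactorial hmn
    have h1 : (0:ℝ) < h.factorial := by exact_mod_cast Nat.factorial_pos h
    rw [mul_one_div, eq_div_iff h1.ne']
    have : ((n-m).factorial * n.descFactorial m : ℝ) = n.factorial := by exact_mod_cast this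
    rw [← hh] at this
    linarith
  have hn1 : (n.factorial : ℝ) ≤ 2 * Real.exp (L + (n * L - n)) := by
    unfold Stirling.stirlingSeq at hS
    have hpos : (0:ℝ) < √(2 * n) * (n / Real.exp 1)^n := by positivity
    rw [div_le_iff₀ hpos] at hS
    refine hS.trans ?_
    have e1 : √(2 * (n:ℝ)) ≤ Real.exp L := by
      rw [hL, Real.exp_log (by linarith)]
      rw [Real.sqrt_le_left (by linarith)]
      nlinarith
    have e2 : ((n:ℝ) / Real.exp 1)^n = Real.exp (n * L - n) := by
      have : (n:ℝ) / Real.exp 1 = Real.exp (L - 1) := by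
        rw [Real.exp_sub, hL, Real.exp_log (by linarith)]
      rw [this, ← Real.exp_nat_mul]; congr 1; ring
    rw [e2, Real.exp_add]
    gcongr
  have h2t : (1/2:ℝ)^(tt n) ≤ 2 * Real.exp (-(n * L)) := by
    have h := lt_tt n
    have e : (1/2:ℝ)^(tt n) = Real.exp (-(tt n * Real.log 2)) := by
      have : (1/2:ℝ) = Real.exp (-Real.log 2) := by
        rw [Real.exp_neg, Real.exp_log (by norm_num)]; norm_num
      rw [this, ← Real.exp_nat_mul]; congr 1; ring
    rw [e]
    have e2 : (2:ℝ) * Real.exp (-(n*L)) = Real.exp (Real.log 2 + -(n*L)) := by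
      rw [Real.exp_add, Real.exp_log (by norm_num)]
    rw [e2]
    apply Real.exp_le_exp.mpr
    have := mul_lt_mul_of_pos_right h hl2'
    have e3 : ((n:ℝ) * L / Real.log 2 - 1) * Real.log 2 = n * L - Real.log 2 := by
      field_simp
    rw [e3] at this
    linarith
  have hφt : (1 + (((n-m).choose 2 + m : ℕ) : ℝ)/(n.choose 2 : ℕ))^(tt n)
      ≤ Real.exp (1.45 * (h:ℝ)^2 * L / n + 2.9 * L) := by
    have b1 : (((n-m).choose 2 + m : ℕ) : ℝ)/(n.choose 2 : ℕ) ≤ ((h:ℝ)^2 + 2 * n) / (n * (n-1)) := by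
      rw [← hh]
      push_cast
      rw [choose_two_real n, Nat.cast_choose_two]
      rw [div_le_div_iff₀ (by nlinarith) (by nlinarith)]
      have : (h:ℝ) * (h-1)/2 + m ≤ ((h:ℝ)^2 + 2*n)/2 := by nlinarith
      have hp : (0:ℝ) ≤ n * (n-1) := by nlinarith
      calc ((h:ℝ) * (h-1)/2 + m) * (n * (n-1)) ≤ (((h:ℝ)^2 + 2*n)/2) * (n*(n-1)) := by gcongr
        _ = _ := by ring
    have b2 : 1 + (((n-m).choose 2 + m : ℕ) : ℝ)/(n.choose 2 : ℕ) ≤ Real.exp (((h:ℝ)^2 + 2 * n) / (n * (n-1))) := by
      have := Real.add_one_le_exp (((h:ℝ)^2 + 2 * n) / (n * (n-1)))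
      linarith
    calc (1 + (((n-m).choose 2 + m : ℕ) : ℝ)/(n.choose 2 : ℕ))^(tt n)
        ≤ (Real.exp (((h:ℝ)^2 + 2 * n) / (n * (n-1))))^(tt n) := by gcongr
      _ = Real.exp (tt n * (((h:ℝ)^2 + 2 * n) / (n * (n-1)))) := by rw [← Real.exp_nat_mul]
      _ ≤ _ := by
        apply Real.exp_le_exp.mpr
        have h1 := tt_le n (by omega)
        have h2 : (n:ℝ) * L / Real.log 2 ≤ n * L / 0.6931 := by
          apply div_le_div_of_nonneg_left (by positivity) (by norm_num) hl2g.le
        have h3 : (tt n : ℝ) ≤ n * L / 0.6931 := h1.trans h2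
        have hc : 0 ≤ (((h:ℝ)^2 + 2 * n) / (n * (n-1))) := by
          apply div_nonneg; positivity; nlinarith
        refine (mul_le_mul_of_nonneg_right h3 hc).trans ?_
        have hn1' : (0:ℝ) < n - 1 := by linarith
        have e1 : (n:ℝ) * L / 0.6931 * (((h:ℝ)^2 + 2 * n) / (n * (n-1))) = (L * ((h:ℝ)^2 + 2*n)) / (0.6931 * (n-1)) := by
          field_simp
        have e2 : 1.45 * (h:ℝ)^2 * L / n + 2.9 * L = (L * ((h:ℝ)^2 + 2*n)) * (1.45 / n) := by
          field_simp; ring
        rw [e1, e2, div_eq_mul_inv]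
        apply mul_le_mul_of_nonneg_left _ (by positivity)
        rw [← one_div, div_le_div_iff₀ (by nlinarith) (by linarith)]
        nlinarith
  have h3 := ovl_le n m hn
  have h3' : (1 + 7*((tt n : ℝ)/(n.choose 2 : ℕ))^2)^(m*n) ≤ Real.exp (112 * L^2) := by
    refine h3.trans ?_
    apply Real.exp_le_exp.mpr
    rw [← hL, div_le_iff₀ (by linarith)]
    have : (0:ℝ) ≤ 112 * L^2 := by positivity
    nlinarith
  have hp := hpart n h hn hh2
  rw [← hL] at hp
  have hw : wt n m = (1/2:ℝ)^(tt n) * (1 + (((n-m).choose 2 + m : ℕ) : ℝ)/(n.choose 2 : ℕ))^(tt n) * (1 + 7*((tt n : ℝ)/(n.choose 2 : ℕ))^2)^(m*n) := by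
    unfold wt
    rw [← mul_pow]; congr 2; ring
  rw [hw, hfac]
  have n1 : (0:ℝ) ≤ (1:ℝ) / h.factorial := by positivity
  have n2 : (0:ℝ) ≤ (1 + (((n-m).choose 2 + m : ℕ) : ℝ)/(n.choose 2 : ℕ))^(tt n) := by positivity
  have n3 : (0:ℝ) ≤ (1 + 7*((tt n : ℝ)/(n.choose 2 : ℕ))^2)^(m*n) := by positivity
  have n4 : (0:ℝ) ≤ (1/2:ℝ)^(tt n) := by positivity
  have n5 : (0:ℝ) ≤ (n.factorial : ℝ) := by positivity
  have key : (2 * Real.exp (L + (n * L - n))) * ((1:ℝ) / h.factorial) * ((2 * Real.exp (-(n * L))) * Real.exp (1.45 * (h:ℝ)^2 * L / n + 2.9 * L) * Real.exp (112 * L^2)) ≤ Real.exp (-(n/2)) := by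
    have h4 : (4:ℝ) ≤ Real.exp 2 := by
      have := Real.add_one_le_exp (1:ℝ)
      have e : Real.exp 2 = Real.exp 1 * Real.exp 1 := by rw [← Real.exp_add]; norm_num
      rw [e]; nlinarith
    have e1 : (2 * Real.exp (L + (n * L - n))) * ((1:ℝ) / h.factorial) * ((2 * Real.exp (-(n * L))) * Real.exp (1.45 * (h:ℝ)^2 * L / n + 2.9 * L) * Real.exp (112 * L^2))
       = 4 * Real.exp (L + (n * L - n) + -(n*L) + 2.9 * L + 112 * L^2) * (Real.exp (1.45 * (h:ℝ)^2 * L / n) * ((1:ℝ) / h.factorial)) := by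
      rw [Real.exp_add (1.45 * (h:ℝ)^2 * L / n), Real.exp_add _ (112 * L^2), Real.exp_add _ (2.9 * L), Real.exp_add _ (-(n*L))]; ring
    rw [e1]
    have n6 : 0 ≤ 4 * Real.exp (L + (n * L - n) + -(n*L) + 2.9 * L + 112 * L^2) := by positivity
    refine (mul_le_mul_of_nonneg_left hp n6).trans ?_
    have n7 : 0 ≤ Real.exp (L + (n * L - n) + -(n*L) + 2.9 * L + 112 * L^2) := by positivity
    have n8 : 0 ≤ Real.exp (n * Real.exp (-(0.275 * L))) := by positivity
    refine (mul_le_mul_of_nonneg_right (mul_le_mul_of_nonneg_right h4 n7) n8).trans ?_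
    rw [← Real.exp_add, ← Real.exp_add]
    apply Real.exp_le_exp.mpr
    linarith
  refine le_trans ?_ key
  apply mul_le_mul
  · exact mul_le_mul_of_nonneg_right hn1 n1
  · apply mul_le_mul
    · exact mul_le_mul h2t hφt n2 (by positivity)
    · exact h3'
    · exact n3
    · positivity
  · positivity
  · positivity

lemma sum_tendsto :
    Tendsto (fun n : ℕ => ∑ m ∈ Icc 2 n, (n.descFactorial m : ℝ) * wt n m) atTop (𝓝 0) := by
  have hlog : Tendsto (fun n : ℕ => Real.log (n:ℝ)) atTop atTop :=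
    Real.tendsto_log_atTop.comp tendsto_natCast_atTop_atTop
  have hr : Tendsto (fun n : ℕ => Real.exp (-(0.04 * Real.log (n:ℝ)))) atTop (𝓝 0) := by
    apply Real.tendsto_exp_neg_atTop_nhds_zero.comp
    exact hlog.const_mul_atTop (by norm_num)
  have hr2 : Tendsto (fun n : ℕ => Real.exp (-(0.275 * Real.log (n:ℝ)))) atTop (𝓝 0) := by
    apply Real.tendsto_exp_neg_atTop_nhds_zero.comp
    exact hlog.const_mul_atTop (by norm_num)
  have hl1 : Tendsto (fun n : ℕ => Real.log (n:ℝ) / n) atTop (𝓝 0) := by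
    have := (Real.isLittleO_log_id_atTop.tendsto_div_nhds_zero).comp (tendsto_natCast_atTop_atTop (R := ℝ))
    simpa [Function.comp_def] using this
  have hl2 : Tendsto (fun n : ℕ => (Real.log (n:ℝ))^2 / n) atTop (𝓝 0) := by
    have := ((Real.isLittleO_pow_log_id_atTop (n := 2)).tendsto_div_nhds_zero).comp (tendsto_natCast_atTop_atTop (R := ℝ))
    simpa [Function.comp_def] using this
  have hn0 : Tendsto (fun n : ℕ => 2 / (n:ℝ)) atTop (𝓝 0) := tendsto_const_div_atTop_nhds_zero_nat 2
  have hne : Tendsto (fun n : ℕ => (n:ℝ) * Real.exp (-(n/2))) atTop (𝓝 0) := by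
    have h := (Real.tendsto_pow_mul_exp_neg_atTop_nhds_zero 1).comp
      (tendsto_natCast_atTop_atTop (R := ℝ) |>.atTop_div_const (by norm_num : (0:ℝ) < 2))
    have h2 := h.const_mul 2
    simp only [mul_zero] at h2
    refine h2.congr ?_
    intro n; simp; ring
  -- the comparison function
  have hcmp : Tendsto (fun n : ℕ => (Real.exp (-(0.04 * Real.log (n:ℝ))))^2 * (1 - Real.exp (-(0.04 * Real.log (n:ℝ))))⁻¹
      + (n:ℝ) * Real.exp (-(n/2))) atTop (𝓝 0) := by
    have h1 := (hr.pow 2).mul ((tendsto_const_nhds (x := (1:ℝ)).sub hr).inv₀ (by norm_num))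
    have h2 := h1.add hne
    simpa using h2
  have e1 : ∀ᶠ n : ℕ in atTop, 2000 ≤ n := eventually_ge_atTop 2000
  have e2 : ∀ᶠ n : ℕ in atTop, 112 * Real.log n / n ≤ 0.01 := by
    have := (hl1.const_mul 112).eventually (ge_mem_nhds (show 112 * 0 < (0.01:ℝ) by norm_num))
    filter_upwards [this] with n hn
    rw [mul_div_assoc]; exact hn
  have e3 : ∀ᶠ n : ℕ in atTop, Stirling.stirlingSeq n ≤ 2 := by
    have h := Stirling.tendsto_stirlingSeq_sqrt_pi
    have hpi : √Real.pi < 2 := by
      rw [Real.sqrt_lt' (by norm_num)]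
      have := Real.pi_lt_four; linarith
    exact h.eventually (ge_mem_nhds hpi)
  have e4 : ∀ᶠ n : ℕ in atTop, 3.9 * Real.log n + 112 * (Real.log n)^2 + n * Real.exp (-(0.275 * Real.log n)) + 2 ≤ n / 2 := by
    have h := (((hl1.const_mul 3.9).add (hl2.const_mul 112)).add hr2).add hn0
    have h' := h.eventually (ge_mem_nhds (show 3.9 * 0 + 112 * 0 + 0 + 0 < (1/2:ℝ) by norm_num))
    filter_upwards [h', e1] with n hn hn1
    have hn' : (2000:ℝ) ≤ n := by exact_mod_cast hn1
    have := mul_le_mul_of_nonneg_left hn (by linarith : (0:ℝ) ≤ n)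
    have e : (n:ℝ) * (3.9 * (Real.log n / n) + 112 * ((Real.log n)^2 / n) + Real.exp (-(0.275 * Real.log n)) + 2 / n)
      = 3.9 * Real.log n + 112 * (Real.log n)^2 + n * Real.exp (-(0.275 * Real.log n)) + 2 := by
      field_simp
    linarith
  refine squeeze_zero' (Eventually.of_forall fun n => ?_) ?_ hcmp
  · apply sum_nonneg; intro m _; unfold wt; positivity
  · filter_upwards [e1, e2, e3, e4] with n h1 h2 h3 h4
    set r := Real.exp (-(0.04 * Real.log (n:ℝ))) with hrdef
    have hr0 : 0 ≤ r := (Real.exp_pos _).le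
    have hn' : (2000:ℝ) ≤ n := by exact_mod_cast h1
    have hr1 : r < 1 := by
      rw [hrdef, Real.exp_lt_one_iff]
      have := Real.log_pos (by linarith : (1:ℝ) < n)
      linarith
    have hterm : ∀ m ∈ Icc 2 n, (n.descFactorial m : ℝ) * wt n m ≤ r^m + Real.exp (-(n/2)) := by
      intro m hm
      rw [mem_Icc] at hm
      rcases le_or_gt (2*m) n with h | h
      · have hA := termA n m h1 h h2
        rw [← hrdef] at hA
        have := Real.exp_pos (-((n:ℝ)/2))
        linarith
      · have := termB n m h1 h hm.2 h3 h4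
        have : 0 ≤ r^m := by positivity
        linarith
    refine (sum_le_sum hterm).trans ?_
    rw [sum_add_distrib]
    apply add_le_add
    · have hs : ∑ m ∈ Icc 2 n, r^m ≤ ∑' k : ℕ, r^(k+2) := by
        have hsum : Summable (fun k : ℕ => r^(k+2)) := by
          simpa [pow_add] using (summable_geometric_of_lt_one hr0 hr1).mul_right (r^2)
        have e : ∑ m ∈ Icc 2 n, r^m = ∑ k ∈ range (n-1), r^(k+2) := by
          rw [← Finset.sum_image (f := fun m => r^m) (g := fun k => k + 2) (by intro a _ b _ h; simpa using h)]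
          apply sum_congr _ (fun _ _ => rfl)
          ext x; simp only [mem_Icc, mem_image, mem_range]
          constructor
          · intro hx; exact ⟨x-2, by omega, by omega⟩
          · rintro ⟨k, hk, rfl⟩; omega
        rw [e]
        exact hsum.sum_le_tsum _ (fun k _ => by positivity)
      have ht : ∑' k : ℕ, r^(k+2) = r^2 * (1-r)⁻¹ := by
        have : (fun k : ℕ => r^(k+2)) = fun k => r^k * r^2 := by ext k; rw [pow_add]
        rw [this, tsum_mul_right, tsum_geometric_of_lt_one hr0 hr1]; ring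
      rw [ht] at hs; exact hs
    · rw [sum_const, nsmul_eq_mul]
      apply mul_le_mul_of_nonneg_right _ (Real.exp_pos _).le
      rw [Nat.card_Icc]
      have : n + 1 - 2 ≤ n := by omega
      exact_mod_cast this

section graph

abbrev EE (n : ℕ) := {e : Sym2 (Fin n) // ¬ e.IsDiag}

variable {n : ℕ}

lemma card_EE : Fintype.card (EE n) = n.choose 2 := by
  have := Sym2.card_subtype_not_diag (α := Fin n)
  rw [Fintype.card_fin] at this
  exact this

open Classical in
noncomputable def toF (G : SimpleGraph (Fin n)) : Finset (EE n) := univ.filter (fun e => e.1 ∈ G.edgeSet)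

def ofF (s : Finset (EE n)) : SimpleGraph (Fin n) :=
  SimpleGraph.fromEdgeSet (Subtype.val '' (s : Set (EE n)))

lemma mem_toF (G : SimpleGraph (Fin n)) (e : EE n) : e ∈ toF G ↔ e.1 ∈ G.edgeSet := by
  simp [toF]

lemma toF_ofF (s : Finset (EE n)) : toF (ofF s) = s := by
  ext e
  rw [mem_toF, ofF, SimpleGraph.edgeSet_fromEdgeSet]
  constructor
  · rintro ⟨⟨e', he', h⟩, _⟩
    have : e' = e := Subtype.ext h
    rw [← this]; exact he'
  · intro he
    exact ⟨⟨e, he, rfl⟩, e.2⟩

lemma ofF_toF (G : SimpleGraph (Fin n)) : ofF (toF G) = G := by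
  have : (Subtype.val '' ((toF G : Finset (EE n)) : Set (EE n))) = G.edgeSet := by
    ext e
    constructor
    · rintro ⟨e', he', rfl⟩
      exact (mem_toF G e').mp he'
    · intro he
      exact ⟨⟨e, G.not_isDiag_of_mem_edgeSet he⟩, (mem_toF G _).mpr he, rfl⟩
  rw [ofF, this, SimpleGraph.fromEdgeSet_edgeSet]

lemma toF_subset (G H : SimpleGraph (Fin n)) : toF G ⊆ toF H ↔ G ≤ H := by
  rw [← SimpleGraph.edgeSet_subset_edgeSet]
  constructor
  · intro h e he
    have := h ((mem_toF G ⟨e, G.not_isDiag_of_mem_edgeSet he⟩).mpr he)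
    exact (mem_toF H _).mp this
  · intro h e he
    rw [mem_toF] at he ⊢
    exact h he

noncomputable def eqv (n : ℕ) : SimpleGraph (Fin n) ≃ Finset (EE n) where
  toFun := toF
  invFun := ofF
  left_inv := ofF_toF
  right_inv := toF_ofF

lemma ofF_injective : Function.Injective (ofF (n := n)) := (eqv n).symm.injective

lemma card_toF (G : SimpleGraph (Fin n)) : G.edgeSet.ncard = (toF G).card := by
  have : G.edgeSet = Subtype.val '' ((toF G : Finset (EE n)) : Set (EE n)) := by
    ext e
    constructor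
    · intro he
      exact ⟨⟨e, G.not_isDiag_of_mem_edgeSet he⟩, (mem_toF G _).mpr he, rfl⟩
    · rintro ⟨e', he', rfl⟩
      exact (mem_toF G e').mp he'
  rw [this, Set.ncard_image_of_injective _ Subtype.val_injective, Set.ncard_coe_finset]

/-- the permutation of pairs induced by a permutation of vertices -/
def pe (σ : Equiv.Perm (Fin n)) : Equiv.Perm (EE n) where
  toFun e := ⟨e.1.map σ, by rw [Sym2.isDiag_map σ.injective]; exact e.2⟩
  invFun e := ⟨e.1.map σ.symm, by rw [Sym2.isDiag_map σ.symm.injective]; exact e.2⟩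
  left_inv e := by
    apply Subtype.ext
    simp [Sym2.map_map]
  right_inv e := by
    apply Subtype.ext
    simp [Sym2.map_map]

lemma pe_val (σ : Equiv.Perm (Fin n)) (e : EE n) : (pe σ e).1 = e.1.map σ := rfl

/-- an isomorphic copy comes from a permutation -/
lemma exists_perm (H H' : SimpleGraph (Fin n)) (h : Nonempty (H' ≃g H)) (hne : H' ≠ H) :
    ∃ σ : Equiv.Perm (Fin n), σ ≠ 1 ∧ (toF H).map (pe σ).toEmbedding = toF H' := by
  obtain ⟨φ⟩ := h
  have hadj : ∀ a b, H'.Adj a b ↔ H.Adj (φ a) (φ b) := fun a b => (φ.map_rel_iff).symm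
  refine ⟨φ.symm.toEquiv, ?_, ?_⟩
  · intro h1
    apply hne
    ext a b
    have : ∀ a, φ a = a := by
      intro a
      have h2 : φ.symm.toEquiv (φ a) = φ a := by rw [h1]; rfl
      have h3 : φ.symm.toEquiv (φ a) = a := φ.symm_apply_apply a
      rw [← h2, h3]
    rw [hadj, this, this]
  · ext e
    rw [Finset.mem_map]
    constructor
    · rintro ⟨e', he', rfl⟩
      rw [mem_toF] at he' ⊢
      obtain ⟨e', hd⟩ := e'
      induction e' using Sym2.ind with
      | _ a b =>
        have he2 : H.Adj a b := he'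
        show (Sym2.map φ.symm.toEquiv s(a,b)) ∈ H'.edgeSet
        rw [Sym2.map_mk, SimpleGraph.mem_edgeSet, hadj]
        have e1 : φ (φ.symm.toEquiv a) = a := φ.apply_symm_apply a
        have e2 : φ (φ.symm.toEquiv b) = b := φ.apply_symm_apply b
        rw [e1, e2]; exact he2
    · intro he
      refine ⟨(pe φ.symm.toEquiv).symm e, ?_, by simp⟩
      rw [mem_toF] at he ⊢
      obtain ⟨e, hd⟩ := e
      induction e using Sym2.ind with
      | _ a b =>
        have he2 : H'.Adj a b := he
        show (Sym2.map φ.symm.toEquiv.symm s(a,b)) ∈ H.edgeSet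
        rw [Sym2.map_mk, SimpleGraph.mem_edgeSet]
        exact (hadj a b).mp he2

open Classical in
lemma numUnique_eq (G : SimpleGraph (Fin n)) :
    numUnique G = ((toF G).powerset.filter (fun F => IsUniqueSubgraph G (ofF F))).card := by
  have : {H : SimpleGraph (Fin n) | IsUniqueSubgraph G H}
      = ofF '' ((((toF G).powerset.filter (fun F => IsUniqueSubgraph G (ofF F))) : Finset (Finset (EE n))) : Set (Finset (EE n))) := by
    ext H
    constructor
    · intro hH
      refine ⟨toF H, ?_, ofF_toF H⟩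
      rw [mem_coe, mem_filter, mem_powerset, toF_subset, ofF_toF]
      exact ⟨hH.1, hH⟩
    · rintro ⟨F, hF, rfl⟩
      rw [mem_coe, mem_filter] at hF
      exact hF.2
  rw [numUnique, this, Set.ncard_image_of_injective _ (ofF_injective), Set.ncard_coe_finset]

open Classical in
lemma nonunique_le (G : SimpleGraph (Fin n)) :
    (2:ℝ)^(toF G).card - numUnique G ≤ ∑ σ ∈ (univ : Finset (Equiv.Perm (Fin n))).erase 1,
      (((toF G).powerset.filter (fun F => F.map (pe σ).toEmbedding ⊆ toF G)).card : ℝ) := by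
  have h1 : (toF G).powerset ⊆ ((toF G).powerset.filter (fun F => IsUniqueSubgraph G (ofF F))) ∪
      ((univ : Finset (Equiv.Perm (Fin n))).erase 1).biUnion
        (fun σ => (toF G).powerset.filter (fun F => F.map (pe σ).toEmbedding ⊆ toF G)) := by
    intro F hF
    rw [mem_union, mem_filter]
    by_cases hu : IsUniqueSubgraph G (ofF F)
    · left; exact ⟨hF, hu⟩
    · right
      have hle : ofF F ≤ G := by rw [← toF_subset, toF_ofF]; exact mem_powerset.mp hF
      unfold IsUniqueSubgraph at hu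
      push Not at hu
      obtain ⟨H', hH', hiso, hne⟩ := hu hle
      obtain ⟨σ, hσ, hmap⟩ := exists_perm (ofF F) H' hiso hne
      rw [mem_biUnion]
      refine ⟨σ, by simpa using hσ, ?_⟩
      rw [mem_filter]
      refine ⟨hF, ?_⟩
      rw [toF_ofF] at hmap
      rw [hmap, toF_subset]; exact hH'
  have h2 := (card_le_card h1).trans (card_union_le _ _)
  rw [card_powerset, ← numUnique_eq] at h2
  have h3 := h2.trans (Nat.add_le_add_left card_biUnion_le _)
  have h4 : ((2 ^ (toF G).card : ℕ) : ℝ) ≤ ((numUnique G + ∑ σ ∈ (univ : Finset (Equiv.Perm (Fin n))).erase 1,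
      ((toF G).powerset.filter (fun F => F.map (pe σ).toEmbedding ⊆ toF G)).card : ℕ) : ℝ) := by
    exact_mod_cast h3
  push_cast at h4
  linarith

/-- number of pairs fixed by the induced permutation -/
lemma fixed_le (σ : Equiv.Perm (Fin n)) :
    (univ.filter (fun e : EE n => pe σ e = e)).card ≤ (n - σ.support.card).choose 2 + σ.support.card := by
  classical
  have h1 : (univ.filter (fun e : EE n => pe σ e = e)).map ⟨Subtype.val, Subtype.val_injective⟩ ⊆
      ((σ.supportᶜ : Finset (Fin n)).offDiag.image Sym2.mk.uncurry) ∪ σ.support.image (fun a => s(a, σ a)) := by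
    intro e he
    rw [Finset.mem_map] at he
    obtain ⟨⟨e, hd⟩, he, rfl⟩ := he
    rw [mem_filter] at he
    have he2 := congrArg Subtype.val he.2
    rw [pe_val] at he2
    induction e using Sym2.ind with
    | _ a b =>
      simp only [Sym2.map_mk] at he2
      show s(a,b) ∈ _
      have hab : a ≠ b := by simpa using hd
      rw [mem_union]
      by_cases ha : a ∈ σ.support
      · right
        rw [mem_image]
        refine ⟨a, ha, ?_⟩
        rw [Equiv.Perm.mem_support] at ha
        rw [Sym2.eq_iff] at he2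
        rcases he2 with h | h
        · exact absurd h.1 ha
        · rw [h.1]
      · left
        rw [mem_image]
        refine ⟨(a,b), ?_, rfl⟩
        rw [Equiv.Perm.notMem_support] at ha
        have hb : σ b = b := by
          rw [Sym2.eq_iff] at he2
          rcases he2 with h | h
          · exact h.2
          · rw [ha] at h; exact absurd h.1 hab
        simp [ha, hb, hab]
  have h2 := card_le_card h1
  rw [card_map] at h2
  refine h2.trans ((card_union_le _ _).trans ?_)
  rw [Sym2.card_image_offDiag, card_compl, Fintype.card_fin]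
  gcongr
  exact card_image_le

lemma moved_le (σ : Equiv.Perm (Fin n)) :
    (univ.filter (fun e : EE n => pe σ e ≠ e)).card ≤ σ.support.card * n := by
  classical
  have h1 : (univ.filter (fun e : EE n => pe σ e ≠ e)).map ⟨Subtype.val, Subtype.val_injective⟩ ⊆
      (σ.support ×ˢ (univ : Finset (Fin n))).image Sym2.mk.uncurry := by
    intro e he
    rw [Finset.mem_map] at he
    obtain ⟨⟨e, hd⟩, he, rfl⟩ := he
    rw [mem_filter] at he
    have he2 : ¬ (pe σ ⟨e, hd⟩).1 = e := fun h => he.2 (Subtype.ext h)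
    rw [pe_val] at he2
    induction e using Sym2.ind with
    | _ a b =>
      simp only [Sym2.map_mk] at he2
      show s(a,b) ∈ _
      rw [mem_image]
      by_cases ha : a ∈ σ.support
      · exact ⟨(a,b), by simp at ha ⊢; exact ha, rfl⟩
      · by_cases hb : b ∈ σ.support
        · exact ⟨(b,a), by simp at hb ⊢; exact hb, by simp [Sym2.eq_swap]⟩
        · exfalso
          rw [Equiv.Perm.notMem_support] at ha hb
          rw [ha, hb] at he2; exact he2 rfl
  have h2 := card_le_card h1
  rw [card_map] at h2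
  refine h2.trans (card_image_le.trans ?_)
  rw [card_product, card_univ, Fintype.card_fin]

open Classical in
lemma card_support_eq_le (m : ℕ) :
    ((univ : Finset (Equiv.Perm (Fin n))).filter (fun σ => σ.support.card = m)).card ≤ n.descFactorial m := by
  have h1 : ((univ : Finset (Equiv.Perm (Fin n))).filter (fun σ => σ.support.card = m)) ⊆
      (powersetCard m (univ : Finset (Fin n))).biUnion
        (fun A => (univ : Finset (Equiv.Perm (Fin n))).filter (fun σ => ∀ a, ¬ a ∈ A → σ a = a)) := by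
    intro σ hσ
    rw [mem_filter] at hσ
    rw [mem_biUnion]
    refine ⟨σ.support, by rw [mem_powersetCard]; exact ⟨subset_univ _, hσ.2⟩, ?_⟩
    rw [mem_filter]
    refine ⟨mem_univ _, fun a ha => by simpa using ha⟩
  refine (card_le_card h1).trans (card_biUnion_le.trans ?_)
  have h2 : ∀ A ∈ powersetCard m (univ : Finset (Fin n)),
      ((univ : Finset (Equiv.Perm (Fin n))).filter (fun σ => ∀ a, ¬ a ∈ A → σ a = a)).card = m.factorial := by
    intro A hA
    rw [mem_powersetCard] at hA
    rw [← Fintype.card_subtype]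
    rw [← Fintype.card_congr (Equiv.Perm.subtypeEquivSubtypePerm (fun a => a ∈ A)), Fintype.card_perm]
    congr 1
    rw [Fintype.card_coe, hA.2]
  rw [sum_congr rfl h2, sum_const, card_powersetCard, card_univ, Fintype.card_fin, smul_eq_mul,
    Nat.descFactorial_eq_factorial_mul_choose, mul_comm]


/-- number of pairs (G, F) with F and its image inside G -/
lemma pair_count {E : Type*} [Fintype E] [DecidableEq E] (π : Equiv.Perm E) (t : ℕ) (ht : t ≤ Fintype.card E) :
    ∑ G ∈ powersetCard (Fintype.card E - t) (univ : Finset E),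
        ((G.powerset.filter (fun F => F.map π.toEmbedding ⊆ G)).card : ℝ)
      = ∑ B ∈ powersetCard t (univ : Finset E),
        (2:ℝ)^(Fintype.card E) / 4^t * 2 ^ (B.filter (fun x => π x ∈ B)).card := by
  symm
  apply Finset.sum_nbij' (i := fun B => Bᶜ) (j := fun G => Gᶜ)
  · intro B hB
    rw [mem_powersetCard] at hB ⊢
    exact ⟨subset_univ _, by rw [card_compl, hB.2]⟩
  · intro G hG
    rw [mem_powersetCard] at hG ⊢
    refine ⟨subset_univ _, by rw [card_compl, hG.2]; omega⟩
  · intro B _; simp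
  · intro B _; simp
  · intro B hB
    rw [mem_powersetCard] at hB
    have h1 : (Bᶜ).powerset.filter (fun F => F.map π.toEmbedding ⊆ Bᶜ)
        = (univ.filter (fun x => x ∉ B ∧ π x ∉ B)).powerset := by
      ext F
      rw [mem_filter, mem_powerset, mem_powerset]
      constructor
      · rintro ⟨h1, h2⟩ x hx
        rw [mem_filter]
        refine ⟨mem_univ _, by have := h1 hx; simpa using this, ?_⟩
        have := h2 (Finset.mem_map.mpr ⟨x, hx, rfl⟩)
        simpa using this
      · intro h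
        refine ⟨fun x hx => by have := (mem_filter.mp (h hx)).2.1; simpa using this, ?_⟩
        intro y hy
        rw [Finset.mem_map] at hy
        obtain ⟨x, hx, rfl⟩ := hy
        have := (mem_filter.mp (h hx)).2.2
        simpa using this
    rw [h1, card_powerset]
    have h2 : (univ.filter (fun x => x ∉ B ∧ π x ∉ B)).card + 2 * t = Fintype.card E + (B.filter (fun x => π x ∈ B)).card := by
      have e1 : (univ.filter (fun x => x ∉ B ∧ π x ∉ B)) = (B ∪ univ.filter (fun x => π x ∈ B))ᶜ := by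
        ext x; simp
      have e2 : (univ.filter (fun x => π x ∈ B)).card = t := by
        have : (univ.filter (fun x => π x ∈ B)) = B.map π.symm.toEmbedding := by
          ext x
          rw [mem_filter, Finset.mem_map]
          constructor
          · intro h; exact ⟨π x, h.2, by simp⟩
          · rintro ⟨y, hy, rfl⟩; simpa using hy
        rw [this, card_map, hB.2]
      have e3 := card_union_add_card_inter B (univ.filter (fun x => π x ∈ B))
      have e4 : B ∩ univ.filter (fun x => π x ∈ B) = B.filter (fun x => π x ∈ B) := by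
        ext x; simp
      rw [e4, e2, hB.2] at e3
      rw [e1, card_compl]
      have e5 : (B ∪ univ.filter (fun x => π x ∈ B)).card ≤ Fintype.card E := card_le_univ _
      omega
    have h3 : (2:ℝ)^((univ.filter (fun x => x ∉ B ∧ π x ∉ B)).card) * 4^t = 2^(Fintype.card E) * 2^((B.filter (fun x => π x ∈ B)).card) := by
      rw [← pow_add, ← h2, pow_add, pow_mul]; norm_num
    have h4 : (0:ℝ) < 4^t := by positivity
    push_cast
    rw [div_mul_eq_mul_div, div_eq_iff h4.ne', h3]

lemma numUnique_le (G : SimpleGraph (Fin n)) : (numUnique G : ℝ) ≤ 2^(toF G).card := by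
  classical
  rw [numUnique_eq]
  have := card_le_card (filter_subset (fun F => IsUniqueSubgraph G (ofF F)) (toF G).powerset)
  rw [card_powerset] at this
  exact_mod_cast this

lemma perm_weight (σ : Equiv.Perm (Fin n)) (hN : 0 < n.choose 2) (ht : tt n ≤ n.choose 2) :
    ∑ G ∈ powersetCard (n.choose 2 - tt n) (univ : Finset (EE n)),
        ((G.powerset.filter (fun F => F.map (pe σ).toEmbedding ⊆ G)).card : ℝ)
      ≤ ((n.choose 2).choose (tt n) : ℝ) * 2^(n.choose 2 - tt n) * wt n σ.support.card := by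
  have h1 := pair_count (pe σ) (tt n) (by rw [card_EE]; exact ht)
  have h2 := main_bound (pe σ) (tt n) (by rw [card_EE]; exact ht) (by rw [card_EE]; exact hN)
  rw [card_EE] at h1 h2
  rw [h1, ← mul_sum]
  have hp : (0:ℝ) ≤ (2:ℝ)^(n.choose 2) / 4^(tt n) := by positivity
  refine (mul_le_mul_of_nonneg_left h2 hp).trans ?_
  have hN' : (0:ℝ) < (n.choose 2 : ℕ) := by exact_mod_cast hN
  have hf : ((univ.filter (fun e : EE n => pe σ e = e)).card : ℝ) / (n.choose 2 : ℕ) ≤
      (((n-σ.support.card).choose 2 + σ.support.card : ℕ) : ℝ)/(n.choose 2 : ℕ) := by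
    gcongr
    exact fixed_le σ
  have h3 : (1 + ((univ.filter (fun e : EE n => pe σ e = e)).card : ℝ) / (n.choose 2 : ℕ))^(tt n)
     ≤ (1 + (((n-σ.support.card).choose 2 + σ.support.card : ℕ) : ℝ)/(n.choose 2 : ℕ))^(tt n) := by
    gcongr
  have h4 : (1 + 7 * ((tt n : ℝ)/(n.choose 2 : ℕ))^2)^(univ.filter (fun e : EE n => pe σ e ≠ e)).card
     ≤ (1 + 7 * ((tt n : ℝ)/(n.choose 2 : ℕ))^2)^(σ.support.card * n) := by
    apply pow_le_pow_right₀
    · have : 0 ≤ 7 * ((tt n : ℝ)/(n.choose 2 : ℕ))^2 := by positivity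
      linarith
    · exact moved_le σ
  have h5 : (2:ℝ)^(n.choose 2) / 4^(tt n) = 2^(n.choose 2 - tt n) * (1/2)^(tt n) := by
    have : (2:ℝ)^(n.choose 2) = 2^(n.choose 2 - tt n) * 2^(tt n) := by
      rw [← pow_add]; congr 1; omega
    rw [this]
    have e : (4:ℝ)^(tt n) = 2^(tt n) * 2^(tt n) := by rw [← mul_pow]; norm_num
    rw [e, one_div, inv_pow]
    field_simp
  rw [h5]
  calc (2:ℝ)^(n.choose 2 - tt n) * (1/2)^(tt n) * (((n.choose 2).choose (tt n) : ℝ) *
        ((1 + ((univ.filter (fun e : EE n => pe σ e = e)).card : ℝ) / (n.choose 2 : ℕ))^(tt n) *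
        (1 + 7 * ((tt n : ℝ)/(n.choose 2 : ℕ))^2)^(univ.filter (fun e : EE n => pe σ e ≠ e)).card))
      ≤ (2:ℝ)^(n.choose 2 - tt n) * (1/2)^(tt n) * (((n.choose 2).choose (tt n) : ℝ) *
        ((1 + (((n-σ.support.card).choose 2 + σ.support.card : ℕ) : ℝ)/(n.choose 2 : ℕ))^(tt n) *
        (1 + 7 * ((tt n : ℝ)/(n.choose 2 : ℕ))^2)^(σ.support.card * n))) := by
        gcongr
    _ = _ := by
        unfold wt
        have e : ∀ x : ℝ, ((1 + x)/2)^(tt n) = (1/2)^(tt n) * (1+x)^(tt n) := by
          intro x; rw [← mul_pow]; congr 1; ring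
        rw [e]; ring

lemma total_weight (hN : 0 < n.choose 2) (ht : tt n ≤ n.choose 2) :
    ∑ s ∈ powersetCard (n.choose 2 - tt n) (univ : Finset (EE n)),
        ((2:ℝ)^(n.choose 2 - tt n) - numUnique (ofF s))
      ≤ ((n.choose 2).choose (tt n) : ℝ) * 2^(n.choose 2 - tt n) *
        ∑ m ∈ Icc 2 n, (n.descFactorial m : ℝ) * wt n m := by
  classical
  have h1 : ∀ s ∈ powersetCard (n.choose 2 - tt n) (univ : Finset (EE n)),
      ((2:ℝ)^(n.choose 2 - tt n) - numUnique (ofF s)) ≤
      ∑ σ ∈ (univ : Finset (Equiv.Perm (Fin n))).erase 1,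
      ((s.powerset.filter (fun F => F.map (pe σ).toEmbedding ⊆ s)).card : ℝ) := by
    intro s hs
    rw [mem_powersetCard] at hs
    have := nonunique_le (ofF s)
    rw [toF_ofF, hs.2] at this
    exact this
  refine (sum_le_sum h1).trans ?_
  rw [sum_comm]
  refine (sum_le_sum (fun σ _ => perm_weight σ hN ht)).trans ?_
  rw [← mul_sum]
  apply mul_le_mul_of_nonneg_left _ (by positivity)
  have h2 : ∀ σ ∈ (univ : Finset (Equiv.Perm (Fin n))).erase 1, σ.support.card ∈ Icc 2 n := by
    intro σ hσ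
    rw [mem_erase] at hσ
    rw [mem_Icc]
    refine ⟨Equiv.Perm.two_le_card_support_of_ne_one hσ.1, ?_⟩
    have := card_le_univ σ.support
    rwa [Fintype.card_fin] at this
  rw [← sum_fiberwise_of_maps_to h2]
  apply sum_le_sum
  intro m _
  have h3 : ∀ σ ∈ ((univ : Finset (Equiv.Perm (Fin n))).erase 1).filter (fun σ => σ.support.card = m),
      wt n σ.support.card = wt n m := by
    intro σ hσ
    rw [(mem_filter.mp hσ).2]
  rw [sum_congr rfl h3, sum_const, nsmul_eq_mul]
  apply mul_le_mul_of_nonneg_right _ (by unfold wt; positivity)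
  have h4 : ((univ : Finset (Equiv.Perm (Fin n))).erase 1).filter (fun σ => σ.support.card = m) ⊆
      (univ : Finset (Equiv.Perm (Fin n))).filter (fun σ => σ.support.card = m) := by
    apply filter_subset_filter; exact erase_subset _ _
  have h5 := (card_le_card h4).trans (card_support_eq_le m)
  exact_mod_cast h5

lemma ratio_bound (c : ℝ) (hc : c < 1) (hN : 0 < n.choose 2) (ht : tt n ≤ n.choose 2) :
    1 - (1 - c)⁻¹ * ∑ m ∈ Icc 2 n, (n.descFactorial m : ℝ) * wt n m ≤
    (({G : SimpleGraph (Fin n) | G.edgeSet.ncard = mEdges n ∧ c * 2 ^ (mEdges n) ≤ (numUnique G : ℝ)}.ncard : ℝ)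
      / ({G : SimpleGraph (Fin n) | G.edgeSet.ncard = mEdges n}.ncard : ℝ)) := by
  classical
  have hm : mEdges n = n.choose 2 - tt n := rfl
  rw [hm]
  set m := n.choose 2 - tt n with hmdef
  have hset : {G : SimpleGraph (Fin n) | G.edgeSet.ncard = m}
      = ofF '' (((powersetCard m (univ : Finset (EE n))) : Finset (Finset (EE n))) : Set (Finset (EE n))) := by
    ext G
    constructor
    · intro hG
      refine ⟨toF G, ?_, ofF_toF G⟩
      rw [mem_coe, mem_powersetCard, ← card_toF]
      exact ⟨subset_univ _, hG⟩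
    · rintro ⟨s, hs, rfl⟩
      rw [mem_coe, mem_powersetCard] at hs
      show (ofF s).edgeSet.ncard = m
      rw [card_toF, toF_ofF, hs.2]
  have hset2 : {G : SimpleGraph (Fin n) | G.edgeSet.ncard = m ∧ c * 2 ^ m ≤ (numUnique G : ℝ)}
      = ofF '' ((((powersetCard m (univ : Finset (EE n))).filter (fun s => c * 2 ^ m ≤ (numUnique (ofF s) : ℝ))) : Finset (Finset (EE n))) : Set (Finset (EE n))) := by
    ext G
    constructor
    · rintro ⟨hG, hG2⟩
      refine ⟨toF G, ?_, ofF_toF G⟩
      rw [mem_coe, mem_filter, mem_powersetCard, ← card_toF, ofF_toF]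
      exact ⟨⟨subset_univ _, hG⟩, hG2⟩
    · rintro ⟨s, hs, rfl⟩
      rw [mem_coe, mem_filter, mem_powersetCard] at hs
      refine ⟨?_, hs.2⟩
      rw [card_toF, toF_ofF, hs.1.2]
  rw [hset, hset2, Set.ncard_image_of_injective _ ofF_injective, Set.ncard_image_of_injective _ ofF_injective,
    Set.ncard_coe_finset, Set.ncard_coe_finset, card_powersetCard, card_univ, card_EE]
  have hT : (0:ℝ) < ((n.choose 2).choose m : ℕ) := by
    exact_mod_cast Nat.choose_pos (by omega)
  rw [le_div_iff₀ hT]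
  set Good := (powersetCard m (univ : Finset (EE n))).filter (fun s => c * 2 ^ m ≤ (numUnique (ofF s) : ℝ)) with hGood
  set Bad := (powersetCard m (univ : Finset (EE n))).filter (fun s => ¬ c * 2 ^ m ≤ (numUnique (ofF s) : ℝ)) with hBad
  have hsum : (Good.card : ℝ) + Bad.card = ((n.choose 2).choose m : ℕ) := by
    have := card_filter_add_card_filter_not (s := powersetCard m (univ : Finset (EE n))) (fun s => c * 2 ^ m ≤ (numUnique (ofF s) : ℝ))
    rw [card_powersetCard, card_univ, card_EE] at this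
    rw [hGood, hBad, ← Nat.cast_add, this]
  have htw := total_weight hN ht
  rw [← hmdef] at htw
  have hbad : (Bad.card : ℝ) * ((1 - c) * 2^m) ≤ ∑ s ∈ powersetCard m (univ : Finset (EE n)),
        ((2:ℝ)^m - numUnique (ofF s)) := by
    calc (Bad.card : ℝ) * ((1 - c) * 2^m) = ∑ s ∈ Bad, ((1-c) * 2^m) := by rw [sum_const, nsmul_eq_mul]
      _ ≤ ∑ s ∈ Bad, ((2:ℝ)^m - numUnique (ofF s)) := by
          apply sum_le_sum
          intro s hs
          rw [hBad, mem_filter] at hs
          have := hs.2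
          push Not at this
          nlinarith
      _ ≤ _ := by
          apply sum_le_sum_of_subset_of_nonneg (filter_subset _ _)
          intro s hs _
          rw [mem_powersetCard] at hs
          have := numUnique_le (ofF s)
          rw [toF_ofF, hs.2] at this
          linarith
  have hsymm : (n.choose 2).choose (tt n) = (n.choose 2).choose m := by
    rw [hmdef, Nat.choose_symm ht]
  rw [hsymm] at htw
  have h1c : 0 < 1 - c := by linarith
  have h2m : (0:ℝ) < 2^m := by positivity
  have hfin : (Bad.card : ℝ) ≤ (1 - c)⁻¹ * (∑ m ∈ Icc 2 n, (n.descFactorial m : ℝ) * wt n m) * ((n.choose 2).choose m : ℕ) := by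
    have h := hbad.trans htw
    rw [inv_mul_eq_div, div_mul_eq_mul_div, le_div_iff₀ h1c]
    have h' : ((Bad.card : ℝ) * (1 - c)) * 2^m ≤ ((∑ m ∈ Icc 2 n, (n.descFactorial m : ℝ) * wt n m) * ((n.choose 2).choose m : ℕ)) * 2^m := by
      calc ((Bad.card : ℝ) * (1 - c)) * 2^m = (Bad.card : ℝ) * ((1 - c) * 2^m) := by ring
        _ ≤ _ := h
        _ = _ := by ring
    exact le_of_mul_le_mul_right h' h2m
  linarith

end graph

/-- For every `c < 1`, if `G_n` is uniform among the graphs on `n` labelled vertices with exactly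
`m_n` edges, then the probability that `G_n` has at least `c * 2 ^ m_n` unique subgraphs
tends to `1`. -/
theorem result (c : ℝ) (hc : c < 1) :
    Tendsto (fun n : ℕ =>
      (({G : SimpleGraph (Fin n) | G.edgeSet.ncard = mEdges n ∧ c * 2 ^ (mEdges n) ≤ (numUnique G : ℝ)}.ncard : ℝ)
      / ({G : SimpleGraph (Fin n) | G.edgeSet.ncard = mEdges n}.ncard : ℝ))) atTop (𝓝 1) := by
  have hlow : Tendsto (fun n : ℕ => 1 - (1 - c)⁻¹ * ∑ m ∈ Icc 2 n, (n.descFactorial m : ℝ) * wt n m) atTop (𝓝 1) := by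
    have := (sum_tendsto.const_mul (1-c)⁻¹).const_sub 1
    simpa using this
  have hev : ∀ᶠ n : ℕ in atTop, 0 < n.choose 2 ∧ tt n ≤ n.choose 2 := by
    have hl1 : Tendsto (fun n : ℕ => Real.log (n:ℝ) / n) atTop (𝓝 0) := by
      have := (Real.isLittleO_log_id_atTop.tendsto_div_nhds_zero).comp (tendsto_natCast_atTop_atTop (R := ℝ))
      simpa [Function.comp_def] using this
    have h2 := hl1.eventually (ge_mem_nhds (show (0:ℝ) < 0.1 by norm_num))
    filter_upwards [h2, eventually_ge_atTop 2000] with n h2 hn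
    have hn' : (2000:ℝ) ≤ n := by exact_mod_cast hn
    refine ⟨Nat.choose_pos (by omega), ?_⟩
    have hlt := tt_le n (by omega)
    rw [div_le_iff₀ (by linarith)] at h2
    have hl2g : (0.6931:ℝ) < Real.log 2 := by have := Real.log_two_gt_d9; linarith
    have hL0 : 0 ≤ Real.log n := Real.log_natCast_nonneg n
    have h3 : (n:ℝ) * Real.log n / Real.log 2 ≤ n * Real.log n / 0.6931 := by
      apply div_le_div_of_nonneg_left (by positivity) (by norm_num) hl2g.le
    have h4 : (n:ℝ) * Real.log n / 0.6931 ≤ n * (n - 1)/2 := by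
      rw [div_le_iff₀ (by norm_num)]
      nlinarith
    have h5 : (tt n : ℝ) ≤ (n.choose 2 : ℕ) := by
      rw [choose_two_real]
      linarith
    exact_mod_cast h5
  refine tendsto_of_tendsto_of_tendsto_of_le_of_le' hlow tendsto_const_nhds ?_ ?_
  · filter_upwards [hev] with n hn
    exact ratio_bound c hc hn.1 hn.2
  · apply Eventually.of_forall
    intro n
    apply div_le_one_of_le₀ _ (by positivity)
    have : {G : SimpleGraph (Fin n) | G.edgeSet.ncard = mEdges n ∧ c * 2 ^ (mEdges n) ≤ (numUnique G : ℝ)}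
      ⊆ {G : SimpleGraph (Fin n) | G.edgeSet.ncard = mEdges n} := fun G hG => hG.1
    exact_mod_cast Set.ncard_le_ncard this (Set.toFinite _)

end Pool.Agent.Results.MP_618f8d_co.AlmostAllUnique
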